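import Mathlib
import Pool.Agent.helper37.NA.Spec2
import Pool.Agent.helper37.L5.SpecE

/-!
# MP_baa4d7_al, THEOREM NA, block E (extensions): the equivariant form of THEOREM NA, `E_B / E[B]` cyclic of order prime to `p`

OUTPUT: `XDC`, `XFD`. Everything is the twin of `helper37/NA/Spec` with an automorphism `α` of `G`. An automorphism is admissible if `am α E = E` (`E = Eg p e z`) and the block of `χ` is stable (`Stb M χ α`). No roots `(D, θ)` occur: the trace is taken on `BE p e m M L K E ψ`.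

RULES FOR ROWS. File `Pool/Agent/<seat>/NA/XXX.lean` with

  import Pool.Agent.helper97.NA.SpecE
  set_option autoImplicit false
  namespace Pool.Agent.NAB
  open Pool.Agent.helper58.DC Pool.Agent.DI Pool.Agent.GR Pool.Agent.OB Pool.Agent.DR Pool.Agent.FI Pool.Agent.FI3 Pool.Agent.FI4 Pool.Agent.FI4I Pool.Agent.FI4E Pool.Agent.LE Pool.Agent.L5
  theorem XXX (hYYY : YYY_stmt) ... : XXX_stmt := ...
  end Pool.Agent.NAB

auxiliary lemmas prefixed `XXX_`, no sorry, no double quotes in the file, no `convert`, no `congr!`. The rows named in the docstring are hypotheses; all rows of `helper37/NA/Spec`, `Spec2` (NEG NUB NUE NUF ..), of `L5/{Spec,SpecE}` (FXA MLT5 FIN5 PRO5 EJ5 OUP5 EDV5 TRE5 ..), of FI4E (`helper58/FI4E/{Defs,Spec}`: BAA TSI TSJ TRA OMX OMR ..,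
`helper70/FI4E/SpecK`: EQA EAU ELE EUN EOQ ..) and of all earlier specs may be added as further hypotheses (no circles). NOTATION: `am α Q` image of `Q`, `al α g = conj g * α`, `FxC α C` all terms fixed, `Stb M χ α` the block of `χ` is stable, `tS p H S α = ∑ᶠ ψ ∈ S, EE p H (funMap α ψ) ψ`, `tL p M χ H α = tS p H (Blk M χ H) α`,
`tE p M K θ α = tS p K (Bl M K θ) α`, `Om p M χ R α`, `Rst N α β`: `β` is the restriction of `α` to the type `N`. Ready lemmas in `helper58/FI4E/Defs`: `mem_am al_apply al_inv_apply al_one al_al am_mul am_one am_conj funMap_mul funMap_conj am_al funMap_al conj_al`. BAA has all facts on automorphisms.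
-/

set_option autoImplicit false

namespace Pool.Agent.NAB

open Pool.Agent.helper58.DC Pool.Agent.DI Pool.Agent.GR Pool.Agent.OB Pool.Agent.DR Pool.Agent.FI Pool.Agent.FI3 Pool.Agent.FI4 Pool.Agent.FI4I Pool.Agent.FI4E Pool.Agent.LE Pool.Agent.L5

section

variable {G : Type} [Group G]

/-- The trace of `α` on the set `BE` (for `α = 1` it is `lE`). -/
noncomputable def tB (p e m : ℕ) (M : Ideal (integralClosure ℤ ℂ)) (L K E : Subgroup G) (ψ : G → ℂ) (α : MulAut G) : ℂ :=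
  tS p K (BE p e m M L K E ψ) α

/-- The alternating sum for the union `X` of blocks of `G`, chains from `R'`. -/
noncomputable def OmR (p : ℕ) (M : Ideal (integralClosure ℤ ℂ)) (X : Set (G → ℂ)) (R' : Subgroup G) (α : MulAut G) : ℂ :=
  ∑ᶠ g : G, ∑ᶠ C ∈ {C : Finset (Subgroup G) | NCh p ⊤ R' C ∧ FxC (al α g) C},
    (-1 : ℂ) ^ (C.card + 1) * tS p (nrm C) (BX M X (nrm C)) (al α g)

end

/-- The claim of the main induction for the group `G` and the automorphisms with inner `n`-th power. -/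
def XMc (p e m n : ℕ) (M : Ideal (integralClosure ℤ ℂ)) (G : Type) [Group G] : Prop :=
  ∀ χ ∈ Irr G, ∀ z x : G, Ucl p e m M (⊤ : Subgroup G) χ z x → ∀ α : MulAut G, am α (Eg p e z) = Eg p e z → Stb M χ α →
    (∃ y : G, α ^ n = MulAut.conj y) →
    tE p M (⊤ : Subgroup G) χ α = tB p e m M (⊤ : Subgroup G) (nz (Eg p e z)) (Eg p e z) χ α

/-! ## 1. Automorphisms, unit classes, traces -/

/-- **XUA** (short to medium; from BAA, NEG, NBC or CJG, B2, TI of DC). Automorphisms, unit classes and `BE`. (1) `Subgroup.map_zpowers`-type lemma, `map_pow`. (2) `PEl`, `PReg` (`orderOf` of an image, `MulEquiv.orderOf_eq`), `map_mul`; `cls (am α L) (α y) x = cls L y (α⁻¹ x)`, `cc (funMap α ψ) z = cc ψ (z ∘ α)` (proof as `cc_funMap`, or inside BAA), so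
`cc (funMap α ψ) (cls (am α L) (α y)) = cc ψ (cls L y)`; `pp p (Cz (am α L) (α y)) = pp p (Cz L y)`: BAA (`am α (Cz L y) = Cz (am α L) (α y)`, cardinality). (3) `funMap α η ∈ IrrOn (am α K)`, `SB M (am α L) (funMap α η) (funMap α ψ)` (BAA), `SB.trans`; the unit class from (2), its `Eg` from (1). (4) (3) for `conj l` in the form
`cjF l η ∈ IrrOn (cjS l K)`, `SB M L (cjF l η) η` (CJG (6)), (1), (2) for `MulAut.conj l`. -/
def XUA_stmt : Prop :=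
  ∀ (p e m : ℕ) (M : Ideal (integralClosure ℤ ℂ)), Setup p M → ∀ (G : Type) [Group G] [Finite G] (α : MulAut G),
    (∀ z : G, Eg p e (α z) = am α (Eg p e z)) ∧
    (∀ (L : Subgroup G) (ψ : G → ℂ) (z x : G), Ucl p e m M L ψ z x → Ucl p e m M (am α L) (funMap α ψ) (α z) (α x)) ∧
    (∀ (L K E : Subgroup G) (ψ : G → ℂ), am α L = L → am α K = K → am α E = E → SB M L (funMap α ψ) ψ →
      ∀ η ∈ BE p e m M L K E ψ, funMap α η ∈ BE p e m M L K E ψ) ∧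
    ∀ (L K E : Subgroup G) (ψ : G → ℂ), ∀ l ∈ L, ∀ η ∈ BE p e m M L K E ψ, cjF l η ∈ BE p e m M L (cjS l K) (cjS l E) ψ

/-- **XTB** (short to medium; from TSI, TSJ, XUA, NBC, B2). The trace `tB`. (1) TSJ (1) for `H = K`, `S = BE p e m M L K E ψ`, `β = MulAut.conj l` and the automorphism `al α (l⁻¹ * g * α l)`: `conj l * al α (l⁻¹ * g * α l) * (conj l)⁻¹ = al α g` (`conj_al`), and `funMap (conj l) '' BE p e m M L K E ψ = BE p e m M L (cjS l K) (cjS l E) ψ` (XUA (4) for `l` and for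
`l⁻¹`: `cjF l (cjF l⁻¹ η) = η`, `cjS l⁻¹ (cjS l K) = K`). (2) TSI (`BE ⊆ IrrOn K`). (3) `funMap 1 η = η`. (4) the sets for `φ` and `ψ` are equal (NBC (2); only `SB.trans` is used). -/
def XTB_stmt : Prop :=
  ∀ (p e m : ℕ) (M : Ideal (integralClosure ℤ ℂ)), Setup p M → ∀ (G : Type) [Group G] [Finite G] (L K E : Subgroup G) (ψ : G → ℂ) (α : MulAut G),
    (∀ l ∈ L, ∀ g : G, tB p e m M L (cjS l K) (cjS l E) ψ (al α g) = tB p e m M L K E ψ (al α (l⁻¹ * g * α l))) ∧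
    (am α K = K → ∀ n ∈ K, tB p e m M L K E ψ (al α n) = tB p e m M L K E ψ α) ∧
    tB p e m M L K E ψ 1 = lE p e m M L K E ψ ∧
    ∀ φ : G → ℂ, SB M L φ ψ → tB p e m M L K E φ α = tB p e m M L K E ψ α

/-- **XOU** (short; pure). Inner powers in a stable subgroup. Proof: by induction on `j` `(al β k) ^ j = conj c * β ^ j` with `c ∈ N`: `conj k * β * (conj c * β ^ j) = conj (k * β c) * β ^ (j + 1)` (`β * conj c = conj (β c) * β`), `β c ∈ N` as `am β N = N` (`mem_am`). For `j = n`: `conj c * conj y = conj (c * y)`. -/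
def XOU_stmt : Prop :=
  ∀ (G : Type) [Group G] (N : Subgroup G) (β : MulAut G) (n : ℕ), am β N = N → ∀ y ∈ N, β ^ n = MulAut.conj y → ∀ k ∈ N,
    ∃ y' ∈ N, (al β k) ^ n = MulAut.conj y'

/-- **XUS** (short; from BAA, QEI, FBC, TRN, B2; compare UNS, `Pool/Agent/*/FI4E/UNS.lean`). Blocks which are not stable contribute nothing. Proof: `funMap α η ∈ IrrOn H` (BAA). If `EE p H (funMap α η) η ≠ 0` then by QEI (2) for `S = Bl M H η` (FBC) `SB M H (funMap α η) η`, so `SB M N (funMap α η) η` (TRN; both vanish outside `H`).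
`SB M N (funMap α η) (funMap α φ)` (BAA, `am α N = N`), so `SB M N (funMap α φ) φ` (`SB.symm`, `SB.trans`), a contradiction. -/
def XUS_stmt : Prop :=
  ∀ (p : ℕ) (M : Ideal (integralClosure ℤ ℂ)), Setup p M → ∀ (G : Type) [Group G] [Finite G] (N H : Subgroup G), H ≤ N →
    ∀ α : MulAut G, am α H = H → am α N = N → ∀ φ : G → ℂ, ¬ SB M N (funMap α φ) φ →
    ∀ η ∈ IrrOn H, SB M N η φ → EE p H (funMap α η) η = 0

/-- **XPB** (short; pure; NPA without the condition that the sums are not `0`). Partition. Proof: for `a ∈ A` let `c a = #{a' ∈ A | r a a'}` (`≥ 1`, constant on the classes of `r`), `u a = 1 / c a`. For `b ∈ B`: `∑_{a ∈ A, S b a} u a = 1` (choose `a₀ ∈ A` with `S b a₀`; the `a ∈ A` with `S b a` are those with `r a₀ a`). So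
`∑_b v b = ∑_b v b ∑_{a, S b a} u a = ∑_a u a ∑_{b, S b a} v b = c * ∑_a u a ∑_{a', r a a'} w a' = c * ∑_{a'} w a' ∑_{a, r a a'} u a = c * ∑_{a'} w a'`. -/
def XPB_stmt : Prop :=
  ∀ (α β : Type) (A : Set α) (B : Set β), A.Finite → B.Finite → ∀ (w : α → ℂ) (v : β → ℂ) (c : ℂ) (r : α → α → Prop) (S : β → α → Prop),
    (∀ b ∈ B, ∃ a ∈ A, S b a) → (∀ a, r a a) → (∀ a a', r a a' → r a' a) → (∀ a a' a'', r a a' → r a' a'' → r a a'') →
    (∀ b ∈ B, ∀ a ∈ A, ∀ a' ∈ A, S b a → (S b a' ↔ r a a')) →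
    (∀ a ∈ A, ∑ᶠ b ∈ {b | b ∈ B ∧ S b a}, v b = c * ∑ᶠ a' ∈ {a' | a' ∈ A ∧ r a a'}, w a') →
    ∑ᶠ b ∈ B, v b = c * ∑ᶠ a ∈ A, w a

/-! ## 2. The local blocks -/

/-- **XTC** (medium; from NUF, NUE, XTB, BAA, NEG, FEQ; twin of NTC and of CTG5). Sum over all pairs `(k, E')`, `E'` fixed by `al β k`. Proof: `E = Eg p e z`, `K = L ⊓ nz E`, `am β K = K` (BAA). If the term for `(k, E')` is not `0` then there is `η ∈ BE p e m M L (L ⊓ nz E') E' ψ`; NUF: `Ucl p e m M L ψ z' x'`, `Eg z' = E'`; NUE: `E' = cjS l E`, `l ∈ L`.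
For `E' = cjS l E`: `L ⊓ nz E' = cjS l K`; `am (al β k) E' = cjS (k * β l) E` (`am_al`, BAA), so `E'` is fixed iff `m' = l⁻¹ * k * β l ∈ nz E`, i.e. `m' ∈ K`; the term is then `tB p e m M L K E ψ (al β m') = tB p e m M L K E ψ β` (XTB (1), (2)). So for every `E'` in the orbit there are `|K|` such `k`, and the orbit has `|L| / |K|` elements (or: the sum over `E'` in the orbit
is `|K|⁻¹` times the sum over `l ∈ L`). Exchange the finite sums over `k` and `E'`. -/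
def XTC_stmt : Prop :=
  ∀ (p e m : ℕ) (M : Ideal (integralClosure ℤ ℂ)), Setup p M → m < e → ∀ (G : Type) [Group G] [Finite G] (L : Subgroup G),
    ∀ ψ ∈ IrrOn L, ∀ z x : G, Ucl p e m M L ψ z x → ∀ β : MulAut G, am β L = L → am β (Eg p e z) = Eg p e z →
    ∑ᶠ k ∈ (L : Set G), ∑ᶠ E' ∈ {E' : Subgroup G | am (al β k) E' = E'}, tB p e m M L (L ⊓ nz E') E' ψ (al β k) =
      (Nat.card L : ℂ) * tB p e m M L (L ⊓ nz (Eg p e z)) (Eg p e z) ψ β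

/-- **XTI** (short to medium; twin of NTI and of IHE5; from NTK, TR1, TR2, TR3, TR4, TRA, TRE5, OUP5 (3), TPR, NEG, B2). The claim for the type `N` in terms of functions on `G`. Proof: as NTI. `β'` the restriction of `β` to `N` (TRA (1)), `β' ^ n = conj ⟨y, _⟩` (OUP5 (3)), `am β' (Eg p e ⟨z, _⟩) = Eg p e ⟨z, _⟩` (NEG (7), TRA),
`Stb M (rN N φ) β'`: `funMap β' (rN N φ) = rN N (funMap β φ)` (TRA), TR2 (2) for `H = N`, TPR. Left side: TRE5 for `H = N`. Right side: the bijection `η ↦ rN N η` of NTI, and `EE p (H.subgroupOf N) (funMap β' (rN N η)) (rN N η) = EE p H (funMap β η) η` (TRA, TR4), `H = N ⊓ nz (Eg p e z)`. -/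
def XTI_stmt : Prop :=
  ∀ (p e m n : ℕ) (M : Ideal (integralClosure ℤ ℂ)), Setup p M → ∀ (G : Type) [Group G] [Finite G] (N : Subgroup G), XMc p e m n M N →
    ∀ φ ∈ IrrOn N, ∀ z x : G, Ucl p e m M N φ z x → ∀ β : MulAut G, am β N = N → am β (Eg p e z) = Eg p e z → SB M N (funMap β φ) φ →
    (∃ y ∈ N, β ^ n = MulAut.conj y) → tE p M N φ β = tB p e m M N (N ⊓ nz (Eg p e z)) (Eg p e z) φ β

/-- **XLC** (medium; twin of NLC; from XPB, XTI, XTC, XUS, XUA, XTB, XOU, NUH, NUX, NUB, NUE, TSI, BAA, TRN, TPR, B2). The blocks of the stable subgroup `N`. Proof: XPB with `A = Blk M χ N = {φ ∈ IrrOn N | SB M ⊤ φ χ}` (TPR), `w φ = EE p N (funMap β φ) φ`, `r φ φ' = SB M N φ φ'`, `B = {(k, E', η) | k ∈ N, am (al β k) E' = E', η ∈ BE p e m M ⊤ (N ⊓ nz E') E' χ}` (in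
`G × Subgroup G × (G → ℂ)`, finite: B2), `v (k, E', η) = EE p (N ⊓ nz E') (funMap (al β k) η) η`, `S (k, E', η) φ = SB M N η φ`, `c = |N|`. (1) NUX for `L := N`: `φ ∈ IrrOn N`, `SB M N η φ`; `SB M ⊤ η φ` (TRN), so `SB M ⊤ φ χ`. (2) for `φ ∈ A`: `{φ' ∈ A | SB M N φ φ'} = Bl M N φ` (TRN), its sum of the `w` is `tE p M N φ β`; `{b ∈ B | S b φ}` is the set of
the `(k, E', η)` with `η ∈ BE p e m M N (N ⊓ nz E') E' φ` (TRN), so its sum of the `v` is the double sum of XTC for `L := N`, `ψ := φ`. (2a) `SB M N (funMap β φ) φ`: NUH (`L = ⊤`, `K = N`): `Ucl p e m M N φ z' x'`, `E₁ = Eg p e z'`. XUA (2), NUB (1): `Ucl p e m M N φ (β z') (β x')` (`am β N = N`), NUE and XUA (1): `am β E₁ = cjS k₁ E₁`, `k₁ ∈ N`. `β₁ = al β k₁⁻¹` fixes `E₁`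
and `N` (`am_al`), `funMap β₁ φ = funMap β φ` (TSI (1)), `β₁ ^ n = conj y'`, `y' ∈ N` (XOU). XTI and XTC for `β₁`: the double sum for `β₁` is `|N| tB .. β₁ = |N| tE p M N φ β₁ = |N| tE p M N φ β` (TSI), and the double sum for `β₁` is the one for `β` (`al β₁ k = al β (k * k₁⁻¹)`: `al_al`, reindex `k`). (2b) `¬ SB M N (funMap β φ) φ`: both sums are `0` by XUS (for `H = N`; and for
`H = N ⊓ nz E'`, `α = al β k`: `am (al β k) N = N`, `am (al β k) (N ⊓ nz E') = N ⊓ nz E'`, `funMap (al β k) φ = funMap β φ`). -/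
def XLC_stmt : Prop :=
  ∀ (p e m n : ℕ) (M : Ideal (integralClosure ℤ ℂ)), Setup p M → m < e → ∀ (G : Type) [Group G] [Finite G],
    ∀ χ ∈ Irr G, ∀ z x : G, Ucl p e m M (⊤ : Subgroup G) χ z x → ∀ N : Subgroup G, XMc p e m n M N →
    ∀ β : MulAut G, am β N = N → (∃ y ∈ N, β ^ n = MulAut.conj y) →
    (Nat.card N : ℂ) * tL p M χ N β =
      ∑ᶠ k ∈ (N : Set G), ∑ᶠ E' ∈ {E' : Subgroup G | am (al β k) E' = E'}, tB p e m M (⊤ : Subgroup G) (N ⊓ nz E') E' χ (al β k)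

/-! ## 3. The toggle inside the normal chains -/

/-- **XTG** (short to medium; pure; COPY NTG, `Pool/Agent/helper25/NA/NTG.lean`, and `TGP5_main`, `Pool/Agent/helper18/L5/TGP5.lean`). Toggle. Proof: for a chain `C` in the set let `P` be the largest term with `¬ E ≤ P` (exists: `R`), `T = P ⊔ E`. The terms which contain `E` contain `T`, the others are `≤ P`; `T ≠ R`, `T` is a `p`-group (`E ≤ nz P`). Insert or remove `T`. Normal chain:
`T ≤ nz Q` for `Q ≤ P`, `Q ∈ C` (`P ≤ nz Q`, `E ≤ nrm C ≤ nz Q`); `Q ≤ nz T` for `T ≤ Q ∈ C` (`Q ≤ nz P`, `Q ≤ cz E ≤ nz E`, and an element normalising `P` and `E` normalises `T`). `FxC β`: `am β T = am β P ⊔ am β E = T`. `T ≤ cz E` (`P ≤ cz E`, `E ≤ cz E`). `E ≤ nz T`. `nrm C ⊓ nz E` does not change. -/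
def XTG_stmt : Prop :=
  ∀ (Γ : Type) [Group Γ] [Finite Γ] (p : ℕ) [Fact p.Prime] (R E : Subgroup Γ) (β : MulAut Γ) (F : Subgroup Γ → ℂ), IsPGroup p E →
    E ≤ cz E → ¬ E ≤ R → am β E = E →
    ∑ᶠ C ∈ {C : Finset (Subgroup Γ) | NCh p ⊤ R C ∧ FxC β C ∧ E ≤ nrm C ∧ ∀ Q ∈ C, Q ≤ cz E},
      (-1 : ℂ) ^ (C.card + 1) * F (nrm C ⊓ nz E) = 0

/-- **XZE** (short to medium; from NUX, NUF, NUH, NUE, NEG, C5a, CLS, B2). The terms of a normal chain centralise `E'`. Proof: `N = nrm C`, `K = N ⊓ nz E'`, `Ucl p e m M K η z' x'`, `Eg z' = E'`. `E' ≤ N`: `z' ∈ K`, NEG (2). `E' ≤ cz E'`: powers of `z'` (NEG (5)); `p`-group: NEG (6). NUH (`L = ⊤`): `Ucl p e m M K η (g z g⁻¹) _`; NUE: `E' = cjS k (Eg (g z g⁻¹)) = cjS (k * g) (Eg z)`.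
`Q ∈ C`: `Q ≤ N` (`Q` normalises all terms of the normal chain: `NCh.nm`, `NCh.ch.chain`), `N ≤ nz Q`. NUX (`L := N`): `φ ∈ IrrOn N`, `SB M N η φ`; NUF: `Ucl p e m M N φ z' x'`. If `z' x' ∉ cz Q` then `cls N (z' x')` vanishes on `cz Q` (`N ≤ nz Q` normalises `cz Q`), so `Mcong M (cc φ (cls N (z' x'))) 0` (C5a for `P = Q`, `L = N`), against `Ucl.ne`.
So `z' x' ∈ cz Q`, `z' ∈ cz Q` (NEG (4) for `L = cz Q`), `E' ≤ cz Q` (NEG (2)), `Q ≤ cz E'`. -/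
def XZE_stmt : Prop :=
  ∀ (p e m : ℕ) (M : Ideal (integralClosure ℤ ℂ)), Setup p M → m < e → ∀ (G : Type) [Group G] [Finite G],
    ∀ χ ∈ Irr G, ∀ z x : G, Ucl p e m M (⊤ : Subgroup G) χ z x → ∀ (R : Subgroup G) (C : Finset (Subgroup G)), NCh p ⊤ R C →
    ∀ (E' : Subgroup G) (η : G → ℂ), η ∈ BE p e m M (⊤ : Subgroup G) (nrm C ⊓ nz E') E' χ →
    E' ≤ nrm C ∧ (∀ Q ∈ C, Q ≤ cz E') ∧ IsPGroup p E' ∧ E' ≤ cz E' ∧ ∃ g : G, E' = cjS g (Eg p e z)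

/-- **XTO** (short to medium; from XTG, XZE). One automorphism `β`, one `E'`. Proof: `f K = tB p e m M ⊤ K E' χ β`. If `BE p e m M ⊤ (nrm C ⊓ nz E') E' χ = ∅` for all `C` with `NCh p ⊤ R C` (this includes `{R}`: `nrm {R} = nz R = ⊤`, `⊤ ⊓ nz E' = nz E'`) then both sides are `0`. Otherwise XZE: `E'` is a `p`-group, `E' ≤ cz E'`, and `¬ E' ≤ R` (`E' = cjS g (Eg p e z)`, `R = cjS g R`).
XTG (`F = f`): the sum over all `C` of the set there is `0`; the chains `C` with `NCh p ⊤ R C`, `FxC β C` which are not in this set have `f (nrm C ⊓ nz E') = 0` by XZE. So the sum over all `C` with `NCh p ⊤ R C`, `FxC β C` is `0`, and the term of `{R}` (`FxC β {R}`) is `(-1) ^ 2 * f (nz E')`. -/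
def XTO_stmt : Prop :=
  ∀ (p e m : ℕ) (M : Ideal (integralClosure ℤ ℂ)), Setup p M → m < e → ∀ (G : Type) [Group G] [Finite G],
    ∀ χ ∈ Irr G, ∀ z x : G, Ucl p e m M (⊤ : Subgroup G) χ z x → ∀ R : Subgroup G, IsPGroup p R → nz R = ⊤ → ¬ Eg p e z ≤ R →
    ∀ (β : MulAut G) (E' : Subgroup G), am β E' = E' → am β R = R →
    ∑ᶠ C ∈ {C : Finset (Subgroup G) | (NCh p ⊤ R C ∧ C ≠ {R}) ∧ FxC β C},
      (-1 : ℂ) ^ (C.card + 1) * tB p e m M (⊤ : Subgroup G) (nrm C ⊓ nz E') E' χ β = - tB p e m M (⊤ : Subgroup G) (nz E') E' χ β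

/-- **XTM** (short to medium; from XTO, XTC, BAA; twin of TOE5). Exchange the finite sums over `C`, `g`, `E'`: for fixed `g` and `E'` with `am (al α g) E' = E'` the sum over the `C` is `- tB p e m M ⊤ (nz E') E' χ (al α g)` (XTO for `β = al α g`; `am β R = R`: BAA). Then XTC for `L = ⊤`, `β = α` (`⊤ ⊓ nz E' = nz E'`, the sum over `k ∈ ⊤` is the sum over all `g`). -/
def XTM_stmt : Prop :=
  ∀ (p e m : ℕ) (M : Ideal (integralClosure ℤ ℂ)), Setup p M → m < e → ∀ (G : Type) [Group G] [Finite G],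
    ∀ χ ∈ Irr G, ∀ z x : G, Ucl p e m M (⊤ : Subgroup G) χ z x → ∀ R : Subgroup G, IsOp p (⊤ : Subgroup G) R → ¬ Eg p e z ≤ R →
    ∀ α : MulAut G, am α (Eg p e z) = Eg p e z →
    ∑ᶠ C ∈ {C : Finset (Subgroup G) | NCh p ⊤ R C ∧ C ≠ {R}}, (-1 : ℂ) ^ (C.card + 1) *
      ∑ᶠ g ∈ {g : G | FxC (al α g) C}, ∑ᶠ E' ∈ {E' : Subgroup G | am (al α g) E' = E'},
        tB p e m M (⊤ : Subgroup G) (nrm C ⊓ nz E') E' χ (al α g) =
      - ((Nat.card G : ℂ) * tB p e m M (⊤ : Subgroup G) (nz (Eg p e z)) (Eg p e z) χ α)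

/-- **XLG** (short to medium; from XLC, TSI, BAA, OUP5; COPY LCG5, `Pool/Agent/*/L5/LCG5.lean`). One chain. Proof: `N = nrm C`. No `g`: both sides are `0`. Otherwise fix one, `g₀`, `β = al α g₀`; `FxC (al α g) C` iff `g = k * g₀` with `k ∈ N`, and `al α (k * g₀) = al β k` (`al_al`). `am β N = N` (BAA), `β ^ n = conj y` with `y ∈ N` (OUP5 (1), (2)). XLC for `β`; `tL p M χ N (al β k) = tL p M χ N β` for `k ∈ N` (TSI). -/
def XLG_stmt : Prop :=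
  ∀ (p e m n : ℕ) (M : Ideal (integralClosure ℤ ℂ)), Setup p M → m < e → ∀ (G : Type) [Group G] [Finite G],
    ∀ χ ∈ Irr G, ∀ z x : G, Ucl p e m M (⊤ : Subgroup G) χ z x → ∀ C : Finset (Subgroup G), XMc p e m n M (nrm C) →
    ∀ α : MulAut G, (∃ y : G, α ^ n = MulAut.conj y) →
    ∑ᶠ g ∈ {g : G | FxC (al α g) C}, tL p M χ (nrm C) (al α g) =
      ∑ᶠ g ∈ {g : G | FxC (al α g) C}, ∑ᶠ E' ∈ {E' : Subgroup G | am (al α g) E' = E'},
        tB p e m M (⊤ : Subgroup G) (nrm C ⊓ nz E') E' χ (al α g)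

/-- **XTN** (short to medium: COPY TG5E, `Pool/Agent/helper75/L5/TG5E.lean`; from XTM, XLG, TSI, BAA, TPR). The alternating sum of the traces. Proof: exchange the sums over `g` and `C` in `Om`. The chain `{R}`: `NCh p ⊤ R {R}`, `nrm {R} = nz R = ⊤`, sign `+1`, `FxC (al α g) {R}` for all `g` (BAA): `|G| tL p M χ ⊤ α` (TSI), `tL p M χ ⊤ α = tE p M ⊤ χ α` (`Blk M χ ⊤ = Bl M ⊤ χ`: TPR).
`C ≠ {R}`: `nrm C ≠ ⊤` (as in TG5E: a term `Q ≠ R` would be a normal `p`-subgroup, `Q ≤ R`), XLG with the hypothesis. Then XTM. -/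
def XTN_stmt : Prop :=
  ∀ (p e m n : ℕ) (M : Ideal (integralClosure ℤ ℂ)), Setup p M → m < e → ∀ (G : Type) [Group G] [Finite G],
    ∀ χ ∈ Irr G, ∀ z x : G, Ucl p e m M (⊤ : Subgroup G) χ z x → ∀ R : Subgroup G, IsOp p (⊤ : Subgroup G) R → ¬ Eg p e z ≤ R →
    ∀ α : MulAut G, am α (Eg p e z) = Eg p e z → (∃ y : G, α ^ n = MulAut.conj y) → (∀ N : Subgroup G, N ≠ ⊤ → XMc p e m n M N) →
    Om p M χ R α = (Nat.card G : ℂ) * (tE p M (⊤ : Subgroup G) χ α - tB p e m M (⊤ : Subgroup G) (nz (Eg p e z)) (Eg p e z) χ α)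

/-! ## 4. Fong-Reynolds with an automorphism, `E ≤ O_p(G)` -/

/-- **XFX** (short; from NOB, XUA, NUB, NUE, BAA, NEG, TPR). Some `al α g`, `g ∈ nz E`, fixes the block of `ψ₁`. Proof: `K = cz R₁`, `am α K = K` (BAA), `nz K = ⊤`. `funMap α ψ₁ ∈ IrrOn K`, `SB M ⊤ (funMap α ψ₁) (funMap α χ)` (BAA), `SB M ⊤ (funMap α χ) χ` (`Stb`, TPR), so `SB M ⊤ ψ₁ (funMap α ψ₁)`. NOB (`H := ⊤`, `ψ := ψ₁`, `ψ' := funMap α ψ₁`): `g` with `SB M K (cjF g (funMap α ψ₁)) ψ₁`,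
and `cjF g (funMap α ψ₁) = funMap (al α g) ψ₁` (`funMap_al`). `β = al α g`, `am β K = K`: XUA (2), NUB (1): `Ucl p e m M K ψ₁ (β z) (β x)`; NUE: `Eg (β z) = cjS k E = E` (`k ∈ K ≤ cz E`, as `E ≤ R₁`). XUA (1): `am β E = E`, and `am β E = cjS g (am α E) = cjS g E`: `g ∈ nz E`. -/
def XFX_stmt : Prop :=
  ∀ (p e m : ℕ) (M : Ideal (integralClosure ℤ ℂ)), Setup p M → m < e → ∀ (G : Type) [Group G] [Finite G],
    ∀ χ ∈ Irr G, ∀ z x : G, ∀ α : MulAut G, am α (Eg p e z) = Eg p e z → Stb M χ α → ∀ R₁ : Subgroup G, nz R₁ = ⊤ → am α R₁ = R₁ →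
    Eg p e z ≤ R₁ → ∀ ψ₁ ∈ IrrOn (cz R₁), SB M (⊤ : Subgroup G) ψ₁ χ → Ucl p e m M (cz R₁) ψ₁ z x →
    ∃ g ∈ nz (Eg p e z), SB M (cz R₁) (funMap (al α g) ψ₁) ψ₁

/-- **XFR** (short to medium: COPY FR5E, `Pool/Agent/helper88/L5/FR5E.lean`, with `S = TT M R₁ ψ₁`; from NFI, NFB, FRD5, FRE5, FXA, BAA, QRS, EVM, IDM, QEI, FBC, CCI, CJG, B2, as NFR). Fong-Reynolds with an automorphism. FXA applies to `D := R₁`, `θ := ψ₁` (`FxR M R₁ ψ₁ α`): `am α (TT M R₁ ψ₁) = TT M R₁ ψ₁` and the sets `Bl M H ψ₁` are stable. -/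
def XFR_stmt : Prop :=
  ∀ (p : ℕ) (M : Ideal (integralClosure ℤ ℂ)), Setup p M → ∀ (G : Type) [Group G] [Finite G] (R₁ : Subgroup G), IsPGroup p R₁ →
    (∀ a ∈ R₁, ∀ b ∈ R₁, a * b = b * a) → nz R₁ = ⊤ → ∀ ψ₁ ∈ IrrOn (cz R₁), ∀ α : MulAut G, am α R₁ = R₁ →
    SB M (cz R₁) (funMap α ψ₁) ψ₁ → ∀ H : Subgroup G, TT M R₁ ψ₁ ≤ H → am α H = H →
    tE p M H ψ₁ α = tE p M (TT M R₁ ψ₁) ψ₁ α

/-- **XMF** (short to medium; twin of NMF; from NOP, NFA, NFS, NFE, XFX, XFR, XTB, TSI, BAA, NEG, TRN, TPR). The claim if `E ≤ R`, `R` a normal `p`-subgroup. Proof: `R₁ = R ⊓ cz R`: commutative, `nz R₁ = ⊤`, `am α R₁ = R₁` (BAA). NOP: `z x ∈ cz R`, so `z ∈ cz R` (NEG (4)), `E = Eg z ≤ R₁`. NFA: `ψ₁`. XFX: `g ∈ nz E`, `β = al α g`; `am β R₁ = R₁`, `am β E = cjS g E = E`, so `am β (nz E) = nz E`.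
`Bl M ⊤ χ = Bl M ⊤ ψ₁`, so `tE ⊤ χ α = tE ⊤ ψ₁ α = tE ⊤ ψ₁ β` (TSI) `= tE (TT) ψ₁ β = tE (nz E) ψ₁ β` (XFR for `β`, `H = ⊤` and `H = nz E`; NFS: `TT M R₁ ψ₁ ≤ nz E`) `= tB .. β` (NFE) `= tB .. α` (XTB (2) for `K = nz E`, `am α K = K`). -/
def XMF_stmt : Prop :=
  ∀ (p e m : ℕ) (M : Ideal (integralClosure ℤ ℂ)), Setup p M → m < e → ∀ (G : Type) [Group G] [Finite G],
    ∀ χ ∈ Irr G, ∀ z x : G, Ucl p e m M (⊤ : Subgroup G) χ z x → ∀ R : Subgroup G, IsPGroup p R → nz R = ⊤ → Eg p e z ≤ R →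
    ∀ α : MulAut G, am α R = R → am α (Eg p e z) = Eg p e z → Stb M χ α →
    tE p M (⊤ : Subgroup G) χ α = tB p e m M (⊤ : Subgroup G) (nz (Eg p e z)) (Eg p e z) χ α

/-! ## 5. Divisibility -/

/-- **XOQ** (short to medium: COPY EOQ, `grep -rl 'theorem EOQ' Pool/Agent`, with smallest term `R'` in place of `⊥`; from NKC (in place of KCH), NKB (in place of KBL (2)), KG1, ELE, EQA, EAU, KIN, KBL, BCL). The sum for the quotient by the abelian normal `p`-subgroup `R₁`. -/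
def XOQ_stmt : Prop :=
  ∀ (p : ℕ) (M : Ideal (integralClosure ℤ ℂ)), Setup p M → ∀ (G Gb : Type) [Group G] [Finite G]
    [Group Gb] [Finite Gb] (R₁ : Subgroup G) (π : G →* Gb), Qn p R₁ π → ∀ R' : Subgroup Gb, nz R' = ⊤ → ∀ (χ : G → ℂ) (α : MulAut G)
    (αb : MulAut Gb), Qa π α αb →
    Om p M χ (R'.comap π) α = (Nat.card R₁ : ℂ) * OmR p M {χ' : Gb → ℂ | χ' ∈ Irr Gb ∧ Induces M (fun g => χ' (π g)) χ} R' αb

/-- **XUN** (short: COPY EUN, `grep -rl 'theorem EUN' Pool/Agent`, with smallest term `R'` in place of `⊥`; from UNS, EAU, IM, B2). Sum over several blocks. -/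
def XUN_stmt : Prop :=
  ∀ (p : ℕ) (M : Ideal (integralClosure ℤ ℂ)), Setup p M → ∀ (G : Type) [Group G] [Finite G] (R' : Subgroup G)
    (X : Set (G → ℂ)), X ⊆ Irr G → (∀ χ' ∈ X, ∀ χ'' ∈ Irr G, Induces M χ'' χ' → χ'' ∈ X) →
    ∀ (α : MulAut G) (n : ℤ), (∀ χ' ∈ X, Stb M χ' α → ∃ m : ℤ, Om p M χ' R' α = (n : ℂ) * m) →
    ∃ m : ℤ, OmR p M X R' α = (n : ℂ) * m

/-- **XDB** (short; twin of NDB; from DEX, NUD, NTR, EDV5, TPR, CLS). The case `O_p(G) = 1`. Proof: as NDB (`DefectGroup p M χ D`, `CentreOut p (e - m / 2) D`), then EDV5 for `c + v = e - m / 2`. -/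
def XDB_stmt : Prop :=
  ∀ (p e m : ℕ) (M : Ideal (integralClosure ℤ ℂ)), Setup p M → m < e → ∀ c v : ℕ, c + v = e - m / 2 → ∀ (G : Type) [Group G] [Finite G],
    IsOp p (⊤ : Subgroup G) ⊥ → ∀ χ ∈ Irr G, ∀ z x : G, Ucl p e m M (⊤ : Subgroup G) χ z x → ∀ α : MulAut G, Stb M χ α →
    ¬ p ∣ orderOf α → ¬ p ^ (v + 1) ∣ Pool.Agent.MAPW.J2 (orderOf α) → ∃ k : ℤ, Om p M χ ⊥ α = (p : ℂ) ^ c * (Nat.card G : ℂ) * k

/-- **XDV** (medium; twin of NDV and of DV5E, `Pool/Agent/helper97/L5/DV5E.lean`; from XDB, XOQ, XUN, NQK, NKC, KBL (1), KG1, EQA, BAA, EJ5, IM). Divisibility. Proof: strong induction on `|G|`. `R = ⊥`: XDB. `R ≠ ⊥`: `R₁ = R ⊓ cz R` is `≠ ⊥`, commutative, normal in `G`, `am α R₁ = R₁` (BAA: `am α R = R`), `z ^ p ^ (e - 1) ∉ R₁`. `Gb = G ⧸ R₁`, `π = QuotientGroup.mk' R₁`,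
`Qn p R₁ π`, `|Gb| < |G|`, `R' = R.map π`, `R'.comap π = R`, `IsOp p ⊤ R'` (NKC (3)), `nz R' = ⊤`. `αb` from EQA (1) (`Qa π α αb`), `αb ^ orderOf α = 1` (EQA (2)), so `orderOf αb ∣ orderOf α`, EJ5 (`n = orderOf α`, `m = orderOf αb`). `X = {χ' ∈ Irr Gb | Induces M (χ' ∘ π) χ}` (closed: KBL (1), IM). For `χ' ∈ X` with `Stb M χ' αb`: `Ucl p e m M ⊤ χ' (π z) (π x)` (NQK),
`(π z) ^ p ^ (e - 1) ∉ R'`, so by induction `Om p M χ' R' αb = p ^ c * |Gb| * k`. XUN with `n = p ^ c * |Gb|`, XOQ, `|R₁| |Gb| = |G|` (KG1). -/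
def XDV_stmt : Prop :=
  ∀ (p e m : ℕ) (M : Ideal (integralClosure ℤ ℂ)), Setup p M → m < e → ∀ c v : ℕ, c + v = e - m / 2 → ∀ (G : Type) [Group G] [Finite G],
    ∀ χ ∈ Irr G, ∀ z x : G, Ucl p e m M (⊤ : Subgroup G) χ z x → ∀ R : Subgroup G, IsOp p (⊤ : Subgroup G) R → z ^ p ^ (e - 1) ∉ R →
    ∀ α : MulAut G, Stb M χ α → ¬ p ∣ orderOf α → ¬ p ^ (v + 1) ∣ Pool.Agent.MAPW.J2 (orderOf α) →
    ∃ k : ℤ, Om p M χ R α = (p : ℂ) ^ c * (Nat.card G : ℂ) * k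

/-! ## 6. The main induction and the final statements -/

/-- **XMN** (medium; twin of MN5E: COPY `Pool/Agent/helper58/L5/MN5E.lean`; from XTN, XDV, XMF, XUA, XTB, NBP, NXU, NQU, NEG, TSI, BAA, PRO5, EJ5, MLT5, FIN5, FBC, NBC, TPR, OUP5). The traces of `α` agree. Proof: strong induction on `|G|`. `R = O_p(G)`, `am α R = R` (BAA), `E = Eg p e z`. If `E ≤ R`: XMF. Otherwise `z ^ p ^ (e - 1) ∉ R` (NEG (3)). PRO5: `α' = α ^ k = al α g`, all primes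
dividing `orderOf α'` divide `n`; `am α' E = E`, `Stb M χ α'` (powers: BAA, IM), `am α' E = cjS g (am α E) = cjS g E`, so `g ∈ nz E`, and `tE ⊤ χ α' = tE ⊤ χ α` (TSI), `tB (nz E) .. α' = tB (nz E) .. α` (XTB (2)). `N = orderOf α'`. For every `j`: `β = α' ^ j` satisfies `am β E = E`, `Stb M χ β`, `β ^ n` inner, `orderOf β ∣ N`, so EJ5, XTN (with the induction hypothesis for the types
`N : Subgroup G`, `N ≠ ⊤`, which are smaller) and XDV give `tE ⊤ χ β - tB (nz E) .. β = p ^ c * k_j`. MLT5 for `(⊤, Bl M ⊤ χ)` (contains `χ`; stable) and `(nz E, BE p e m M ⊤ (nz E) E χ)` (BC: NBC (3); nonempty: NXU for `L = ⊤`; stable: XUA (3)), FIN5: the sums of the multiplicities are `Le p M ⊤ χ` and `lE = Le p M (nz E) η` (NQU, XTB (3); `α' ^ 0 = 1`), both `≤ p ^ (2 m + bz p) ≤ p ^ c`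
by NBP. So the traces agree (`j = 1`). -/
def XMN_stmt : Prop :=
  ∀ (p e m : ℕ) (M : Ideal (integralClosure ℤ ℂ)), Setup p M → ∀ c v n : ℕ, c + v = e - m / 2 → 2 * m + bz p ≤ c → 0 < n → ¬ p ∣ n →
    ¬ p ^ (v + 1) ∣ Pool.Agent.MAPW.J2 n → ∀ (G : Type) [Group G] [Finite G], XMc p e m n M G

/-- **XDZ** (short to medium: COPY DZ5, `Pool/Agent/helper55/L5/DZ5.lean`; from OMX, OMR, XTN, XMN, XUA, NUB, NUE, NEG, BAA, OUP5, TPR). The sum of Dade over all `d` and all `U` containing `a` is zero. Proof: `a = X.proj e₀`, `α = X.act e₀`, `n = orderOf a`, `α ^ n` inner (as in DZ5). OMX: `|G| dadeSum = Om p M χ ⊥ α`. If `¬ Stb M χ α`: `0` by OMR (2). Otherwise XUA (2), NUB (1), NUE for `K = ⊤`: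
`am α E = Eg (α z) = cjS k E`; `β = al α k⁻¹` fixes `E`, `Stb M χ β` (BAA), `β ^ n` inner (OUP5 (1)), `Om p M χ ⊥ β = Om p M χ ⊥ α` (OMR (1)). XTN for `R = ⊥` (`¬ E ≤ ⊥`: NEG (6)) with XMN for the subgroups, and XMN for `G`: `0`. -/
def XDZ_stmt : Prop :=
  ∀ (p e m : ℕ) (M : Ideal (integralClosure ℤ ℂ)), Setup p M → ∀ c v : ℕ, c + v = e - m / 2 → 2 * m + bz p ≤ c →
    ∀ (G E A : Type) [Group G] [Group E] [Group A] [Finite G] [Finite E] (X : Extension G E A), IsOp p (⊤ : Subgroup G) ⊥ →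
    ∀ χ ∈ Irr G, ∀ z x : G, Ucl p e m M (⊤ : Subgroup G) χ z x → ∀ a : A, ¬ p ∣ orderOf a →
    ¬ p ^ (v + 1) ∣ Pool.Agent.MAPW.J2 (orderOf a) → dadeSum X p M χ a = 0

/-- **XDC** (short: COPY DC5, `Pool/Agent/helper55/L5/DC5.lean`, first item; from XDZ, ZRO, DWN, EJ5, B2). `E_B / E[B]` cyclic: all `U`. -/
def XDC_stmt : Prop :=
  ∀ (p e m : ℕ) (M : Ideal (integralClosure ℤ ℂ)), Setup p M → ∀ c v : ℕ, c + v = e - m / 2 → 2 * m + bz p ≤ c →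
    ∀ (G E A : Type) [Group G] [Group E] [Group A] [Finite G] [Finite E] (X : Extension G E A), IsOp p (⊤ : Subgroup G) ⊥ →
    ∀ χ ∈ Irr G, ∀ z x : G, Ucl p e m M (⊤ : Subgroup G) χ z x → ∀ s : A, ¬ p ∣ orderOf s →
    ¬ p ^ (v + 1) ∣ Pool.Agent.MAPW.J2 (orderOf s) →
    (∀ a ∈ Pool.Agent.BQ.AB X M χ, ∃ k : ℤ, s ^ k * a ∈ Pool.Agent.BQ.AI X M χ) →
    ∀ U : Subgroup A, ∑ᶠ d : ℤ, altSum X p M χ d U = 0

/-- **XFD** (short; from XDC and the proof of NFQ: DG6, CLS, TPR, NEG, SYL). The final statement in terms of the defect group, `c = e - m / 2 - v`. -/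
def XFD_stmt : Prop :=
  ∀ (p e m : ℕ) (M : Ideal (integralClosure ℤ ℂ)), Setup p M → ∀ v : ℕ, 2 * m + bz p + m / 2 + v ≤ e →
    ∀ (G E A : Type) [Group G] [Group E] [Group A] [Finite G] [Finite E] (X : Extension G E A), IsOp p (⊤ : Subgroup G) ⊥ →
    ∀ χ ∈ Irr G, ∀ D : Subgroup G, Pool.Agent.MAP.DefectGroup p M χ D → Nat.card D ≤ p ^ (e + m) →
    ∀ z ∈ D, (∀ d ∈ D, z * d = d * z) → orderOf z = p ^ e → ∀ s : A, ¬ p ∣ orderOf s →
    ¬ p ^ (v + 1) ∣ Pool.Agent.MAPW.J2 (orderOf s) →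
    (∀ a ∈ Pool.Agent.BQ.AB X M χ, ∃ k : ℤ, s ^ k * a ∈ Pool.Agent.BQ.AI X M χ) →
    ∀ U : Subgroup A, ∑ᶠ d : ℤ, altSum X p M χ d U = 0

end Pool.Agent.NAB
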