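import Pool.Agent.helper97.NA.SpecE

/-!
# Row nx:XTC (MP_baa4d7_al): sum over all pairs `(k, E')`, `E'` fixed by `al β k`
-/

set_option autoImplicit false

namespace Pool.Agent.NAB

open Pool.Agent.helper58.DC Pool.Agent.DI Pool.Agent.GR Pool.Agent.OB Pool.Agent.DR Pool.Agent.FI Pool.Agent.FI3 Pool.Agent.FI4 Pool.Agent.FI4I Pool.Agent.FI4E Pool.Agent.LE Pool.Agent.L5

section

variable {G : Type} [Group G]

theorem XTC_eq (E : Subgroup G) (l l₀ : G) : cjS l E = cjS l₀ E ↔ l₀⁻¹ * l ∈ nz E := by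
  rw [Subgroup.mem_normalizer_iff]
  constructor
  · intro h k
    have h1 : l * k * l⁻¹ ∈ cjS l E ↔ l * k * l⁻¹ ∈ cjS l₀ E := by rw [h]
    rw [mem_cjS, mem_cjS] at h1
    have e1 : l⁻¹ * (l * k * l⁻¹) * l = k := by group
    have e2 : l₀⁻¹ * (l * k * l⁻¹) * l₀ = l₀⁻¹ * l * k * (l₀⁻¹ * l)⁻¹ := by group
    rw [e1, e2] at h1
    exact h1
  · intro h
    ext x
    rw [mem_cjS, mem_cjS]
    have h1 := h (l⁻¹ * x * l)
    have e2 : l₀⁻¹ * l * (l⁻¹ * x * l) * (l₀⁻¹ * l)⁻¹ = l₀⁻¹ * x * l₀ := by group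
    rw [e2] at h1
    exact h1

theorem XTC_nz (E L : Subgroup G) (l : G) (hl : l ∈ L) : L ⊓ nz (cjS l E) = cjS l (L ⊓ nz E) := by
  ext x
  rw [mem_cjS, Subgroup.mem_inf, Subgroup.mem_inf]
  have h1 : x ∈ L ↔ l⁻¹ * x * l ∈ L := by
    constructor
    · intro h
      exact L.mul_mem (L.mul_mem (L.inv_mem hl) h) hl
    · intro h
      have h2 := L.mul_mem (L.mul_mem hl h) (L.inv_mem hl)
      have e : l * (l⁻¹ * x * l) * l⁻¹ = x := by group
      rwa [e] at h2
  have h2 : x ∈ nz (cjS l E) ↔ l⁻¹ * x * l ∈ nz E := by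
    rw [Subgroup.mem_normalizer_iff, Subgroup.mem_normalizer_iff]
    constructor
    · intro h k
      have h3 := h (l * k * l⁻¹)
      rw [mem_cjS, mem_cjS] at h3
      have e1 : l⁻¹ * (l * k * l⁻¹) * l = k := by group
      have e2 : l⁻¹ * (x * (l * k * l⁻¹) * x⁻¹) * l = l⁻¹ * x * l * k * (l⁻¹ * x * l)⁻¹ := by group
      rw [e1, e2] at h3
      exact h3
    · intro h k
      have h3 := h (l⁻¹ * k * l)
      rw [mem_cjS, mem_cjS]
      have e2 : l⁻¹ * x * l * (l⁻¹ * k * l) * (l⁻¹ * x * l)⁻¹ = l⁻¹ * (x * k * x⁻¹) * l := by group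
      rw [e2] at h3
      exact h3
  rw [h1, h2]

theorem XTC_fib (E L : Subgroup G) (l₀ : G) (hl₀ : l₀ ∈ L) :
    {l : G | l ∈ L ∧ cjS l E = cjS l₀ E}.ncard = Nat.card (L ⊓ nz E : Subgroup G) := by
  have e : {l : G | l ∈ L ∧ cjS l E = cjS l₀ E} = (fun k => l₀ * k) '' ((L ⊓ nz E : Subgroup G) : Set G) := by
    ext l
    simp only [Set.mem_image, SetLike.mem_coe]
    constructor
    · intro h
      have h' : l ∈ L ∧ cjS l E = cjS l₀ E := h
      refine ⟨l₀⁻¹ * l, ?_, by group⟩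
      exact Subgroup.mem_inf.2 ⟨L.mul_mem (L.inv_mem hl₀) h'.1, (XTC_eq E l l₀).1 h'.2⟩
    · rintro ⟨k, hk, rfl⟩
      have hk' := Subgroup.mem_inf.1 hk
      show l₀ * k ∈ L ∧ cjS (l₀ * k) E = cjS l₀ E
      refine ⟨L.mul_mem hl₀ hk'.1, (XTC_eq E _ l₀).2 ?_⟩
      have e : l₀⁻¹ * (l₀ * k) = k := by group
      rw [e]
      exact hk'.2
  rw [e, Set.ncard_image_of_injective _ (mul_right_injective l₀)]
  rfl

theorem XTC_card [Finite G] (L E : Subgroup G) :
    (Nat.card L : ℂ) = ∑ᶠ E' : Subgroup G, ({l : G | l ∈ L ∧ cjS l E = E'}.ncard : ℂ) := by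
  classical
  let _ := Fintype.ofFinite G
  let _ : Fintype (Subgroup G) := Fintype.ofFinite _
  rw [finsum_eq_sum_of_fintype]
  have h1 : Nat.card L = (Finset.univ.filter fun l : G => l ∈ L).card := by
    rw [Nat.card_eq_fintype_card, Fintype.card_subtype]
  have h2 : (Finset.univ.filter fun l : G => l ∈ L).card =
      ∑ E' : Subgroup G, ((Finset.univ.filter fun l : G => l ∈ L).filter fun l => cjS l E = E').card :=
    Finset.card_eq_sum_card_fiberwise fun _ _ => Finset.mem_univ _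
  rw [h1, h2, Nat.cast_sum]
  refine Finset.sum_congr rfl fun E' _ => ?_
  congr 1
  rw [← Set.ncard_coe_finset]
  congr 1
  ext l
  simp

open Classical in
theorem XTC_fs {β : Type} [Fintype β] (P : β → Prop) (F : β → ℂ) :
    ∑ᶠ a ∈ {a : β | P a}, F a = ∑ a : β, if P a then F a else 0 := by
  have hfin : ({a : β | P a}).Finite := Set.toFinite _
  rw [finsum_mem_eq_finite_toFinset_sum _ hfin, ← Finset.sum_filter]
  refine Finset.sum_congr ?_ fun _ _ => rfl
  ext g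
  simp

theorem XTC_cjS (a b : G) (E : Subgroup G) : cjS a (cjS b E) = cjS (a * b) E := by
  rw [← am_conj, ← am_conj, ← am_conj, ← am_mul, map_mul]

end

theorem XTC (hNUF : NUF_stmt) (hNUE : NUE_stmt) (hXTB : XTB_stmt) (hBAA : BAA_stmt) : XTC_stmt := by
  classical
  intro p e m M hS hme G _ _ L ψ hψ z x hU β hβL hβE
  let _ := Fintype.ofFinite G
  let _ : Fintype (Subgroup G) := Fintype.ofFinite _
  obtain ⟨E, hE⟩ : ∃ E, E = Eg p e z := ⟨_, rfl⟩
  rw [← hE] at hβE ⊢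
  obtain ⟨K, hK⟩ : ∃ K, K = L ⊓ nz E := ⟨_, rfl⟩
  obtain ⟨hT1, hT2, -, -⟩ := hXTB p e m M hS G L K E ψ β
  have hβK : am β K = K := by
    have h1 := (hBAA G M p β L (nz E) L ψ ψ ψ).1.2.2.2.1
    have h2 := (hBAA G M p β E E L ψ ψ ψ).1.2.1
    rw [hK, h1, hβL, ← h2, hβE]
  have hβl : ∀ l ∈ L, β l ∈ L := by
    intro l hl
    have h1 : β l ∈ am β L := by
      rw [mem_am, MulAut.inv_apply_self]
      exact hl
    rwa [hβL] at h1
  -- fixed subgroups
  have hfix : ∀ k l : G, am (al β k) (cjS l E) = cjS l E ↔ l⁻¹ * (k * β l) ∈ nz E := by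
    intro k l
    have h1 := ((hBAA G M p β E E L ψ ψ ψ).2.2.2.2.2.2.2.2.1 l)
    have h2 : am β (cjS l E) = cjS (β l) (am β E) := h1.1
    rw [am_al, h2, hβE, XTC_cjS, XTC_eq]
  have hset : ∀ (F : G → ℂ) , ∑ᶠ k ∈ (L : Set G), F k = ∑ k : G, if k ∈ L then F k else 0 := by
    intro F
    exact XTC_fs (fun k => k ∈ L) F
  rw [hset]
  have h1 : ∀ k : G, (if k ∈ L then ∑ᶠ E' ∈ {E' : Subgroup G | am (al β k) E' = E'}, tB p e m M L (L ⊓ nz E') E' ψ (al β k) else 0) =
      ∑ E' : Subgroup G, if k ∈ L ∧ am (al β k) E' = E' then tB p e m M L (L ⊓ nz E') E' ψ (al β k) else 0 := by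
    intro k
    rw [XTC_fs]
    by_cases hk : k ∈ L
    · rw [if_pos hk]
      refine Finset.sum_congr rfl fun E' _ => ?_
      simp only [hk, true_and]
    · rw [if_neg hk]
      symm
      refine Finset.sum_eq_zero fun E' _ => ?_
      rw [if_neg fun h => hk h.1]
  rw [Finset.sum_congr rfl fun k _ => h1 k, Finset.sum_comm, XTC_card L E, finsum_eq_sum_of_fintype, Finset.sum_mul]
  refine Finset.sum_congr rfl fun E' _ => ?_
  by_cases h : ∃ l ∈ L, E' = cjS l E
  · obtain ⟨l, hl, rfl⟩ := h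
    rw [XTC_fib _ _ _ hl, XTC_nz _ _ _ hl, ← hK]
    have e0 := Equiv.sum_comp ((Equiv.mulLeft l).trans (Equiv.mulRight (β l)⁻¹))
      (fun k : G => if k ∈ L ∧ am (al β k) (cjS l E) = cjS l E then tB p e m M L (cjS l K) (cjS l E) ψ (al β k) else 0)
    rw [← e0]
    have h3 : ∀ n : G, (if (((Equiv.mulLeft l).trans (Equiv.mulRight (β l)⁻¹)) n) ∈ L ∧
          am (al β (((Equiv.mulLeft l).trans (Equiv.mulRight (β l)⁻¹)) n)) (cjS l E) = cjS l E then
        tB p e m M L (cjS l K) (cjS l E) ψ (al β (((Equiv.mulLeft l).trans (Equiv.mulRight (β l)⁻¹)) n)) else 0) =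
        if n ∈ K then tB p e m M L K E ψ β else 0 := by
      intro n
      have e1 : ((Equiv.mulLeft l).trans (Equiv.mulRight (β l)⁻¹)) n = l * n * (β l)⁻¹ := rfl
      have e2 : l⁻¹ * (l * n * (β l)⁻¹ * β l) = n := by group
      have e3 : l⁻¹ * (l * n * (β l)⁻¹) * β l = n := by group
      rw [e1]
      have hiff : (l * n * (β l)⁻¹ ∈ L ∧ am (al β (l * n * (β l)⁻¹)) (cjS l E) = cjS l E) ↔ n ∈ K := by
        rw [hfix, e2, hK, Subgroup.mem_inf]
        refine and_congr_left fun _ => ?_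
        constructor
        · intro h
          have h4 := L.mul_mem (L.mul_mem (L.inv_mem hl) h) (hβl l hl)
          rwa [e3] at h4
        · intro h
          exact L.mul_mem (L.mul_mem hl h) (L.inv_mem (hβl l hl))
      by_cases hn : n ∈ K
      · rw [if_pos (hiff.2 hn), if_pos hn, hT1 l hl, e3]
        exact hT2 hβK n hn
      · rw [if_neg fun h => hn (hiff.1 h), if_neg hn]
    rw [Finset.sum_congr rfl fun n _ => h3 n, ← Finset.sum_filter, Finset.sum_const, nsmul_eq_mul]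
    have h4 : (Finset.univ.filter fun n : G => n ∈ K).card = Nat.card K := by
      rw [Nat.card_eq_fintype_card, Fintype.card_subtype]
    rw [h4]
  · have h1 : {l : G | l ∈ L ∧ cjS l E = E'}.ncard = 0 := by
      have : {l : G | l ∈ L ∧ cjS l E = E'} = ∅ := by
        ext l
        simp only [Set.mem_empty_iff_false, iff_false]
        rintro ⟨hl, he⟩
        exact h ⟨l, hl, he.symm⟩
      rw [this, Set.ncard_empty]
    have h2 : BE p e m M L (L ⊓ nz E') E' ψ = ∅ := by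
      ext η
      simp only [Set.mem_empty_iff_false, iff_false]
      rintro ⟨hη, hSB, z', x', hU', hE'⟩
      have h3 := hNUF p e m M hS hme G L E' η hη z' x' hU' hE' ψ hSB
      obtain ⟨k, hk, hk'⟩ := hNUE p e m M hS hme G L ψ hψ z x z' x' hU h3
      exact h ⟨k, hk, by rw [← hE', hk', hE]⟩
    have h3 : ∀ γ : MulAut G, tB p e m M L (L ⊓ nz E') E' ψ γ = 0 := by
      intro γ
      unfold tB tS
      rw [h2, finsum_mem_empty]
    rw [h1, Nat.cast_zero, zero_mul]
    refine Finset.sum_eq_zero fun k _ => ?_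
    rw [h3, ite_self]

end Pool.Agent.NAB
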